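import Pool.Agent.H94.LP7.M68
import Pool.Agent.H94.LP7.XE.Gain

/-!
# XE, module W: the growth with gain

As `Pool.Agent.XD.growth`, with `gain` for the `l < m - 1 - s`: if `r = |UU j| / f (m-1) j`, `j ≥ 1`, `j + 1 < d`, then
`|UU (j + 1)| / f (m-1) (j+1) ≥ r (1 - C ε + κ (1 - r))` (`growth_gain`; `f (m - 1 - s) (j + 1) ≥ f (m-1) (j+1) / 2`).
`kk_gain`: `kk N m d e ≤ (1 + 4 ε) |UU (d - e)|`, `kk N m d 1 ≥ |UU (d - 1)|` (as in `Pool.Agent.XD.kk_le`),
`f m (d - 1) ≤ (1 + 2 ε) f (m - 1) (d - 1)` (`recu`, `small`), `f (m - 1) (d - e) ≤ f m (d - e)`.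
If `C ε` is not small the left side is `≤ 0`.
-/

set_option autoImplicit false

namespace Pool.Agent.XE

open Finset Pool.Agent.XD

variable {m d : ℕ} {N : Finset (Multiset ℕ)} {f : ℕ → ℕ → ℕ} {τ : ℕ → ℕ} {ε : ℝ}

private theorem sum_recu' (hT : Thr m d f τ ε) {j : ℕ} (hj : j + 1 < d) (a b : ℕ)
    (ha : τ (j + 1) ≤ a) (hab : a ≤ b) (hbm : b ≤ m) :
    ∑ l ∈ Ico a b, (f (l + 1) j : ℝ) = (f b (j + 1) : ℝ) - (f a (j + 1) : ℝ) := by
  induction b, hab using Nat.le_induction with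
  | base => simp
  | succ b hb ih =>
    rw [sum_Ico_succ_top hb, ih (by omega), hT.recu j hj b (by omega) (by omega)]
    push_cast
    ring

/-- the elements `l ::ₘ v` -/
private theorem UU_sum (hN : Stair m d N f) (hT : Thr m d f τ ε) {j : ℕ} (hj : j + 1 < d) :
    ∑ l ∈ Ico (τ (j + 1)) (m - 1), ((UU N m d j).filter fun v => ∀ x ∈ v, x < l + 1).card ≤
      (UU N m d (j + 1)).card := by
  set U := UU N m d j with hU
  set D : ℕ → Finset (Multiset ℕ) := fun l => U.filter fun v => ∀ x ∈ v, x < l + 1 with hD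
  have hUl : U ⊆ lay N (m - 1) j := filter_subset _ _
  show ∑ l ∈ Ico (τ (j + 1)) (m - 1), (D l).card ≤ _
  rw [← card_sigma]
  refine card_le_card_of_injOn (fun p : (_ : ℕ) × Multiset ℕ => p.1 ::ₘ p.2) ?_ ?_
  · rintro ⟨l, v⟩ hp
    rw [mem_coe, mem_sigma, mem_Ico] at hp
    obtain ⟨⟨h1, h2⟩, h3⟩ := hp
    have h3' : v ∈ U ∧ ∀ x ∈ v, x < l + 1 := by
      have h4 : v ∈ U.filter fun v => ∀ x ∈ v, x < l + 1 := h3
      exact mem_filter.1 h4
    have h4 := mem_lay.1 (hUl h3'.1)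
    rw [mem_coe]
    refine UU_up hN hj h3'.1 h2 (push hN hT hj h1 (by omega) ?_)
    rw [mem_lay]
    exact ⟨h4.1, h4.2.1, h3'.2⟩
  · rintro ⟨l, v⟩ hp ⟨l', v'⟩ hp' heq
    rw [mem_coe, mem_sigma] at hp hp'
    have h3 : ∀ x ∈ v, x < l + 1 := by
      have h4 : v ∈ U.filter fun v => ∀ x ∈ v, x < l + 1 := hp.2
      exact (mem_filter.1 h4).2
    have h3' : ∀ x ∈ v', x < l' + 1 := by
      have h4 : v' ∈ U.filter fun v => ∀ x ∈ v, x < l' + 1 := hp'.2
      exact (mem_filter.1 h4).2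
    have heq' : l ::ₘ v = l' ::ₘ v' := heq
    have h5 : l ≤ l' := by
      have : l ∈ l' ::ₘ v' := by
        rw [← heq']
        exact Multiset.mem_cons_self _ _
      rcases Multiset.mem_cons.1 this with h | h
      · exact h.le
      · have := h3' l h
        omega
    have h6 : l' ≤ l := by
      have : l' ∈ l ::ₘ v := by
        rw [heq']
        exact Multiset.mem_cons_self _ _
      rcases Multiset.mem_cons.1 this with h | h
      · exact h.le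
      · have := h3 l' h
        omega
    obtain rfl : l = l' := le_antisymm h5 h6
    rw [Multiset.cons_inj_right] at heq'
    rw [heq']

private theorem f_mono (hN : Stair m d N f) {i i' j : ℕ} (hi : i ≤ i') (hi' : i' ≤ m) (hj : j ≤ d) :
    f i j ≤ f i' j := by
  rw [← hN.cnt i (hi.trans hi') j hj, ← hN.cnt i' hi' j hj]
  refine card_le_card fun v hv => ?_
  rw [mem_lay] at hv ⊢
  exact ⟨hv.1, hv.2.1, fun x hx => (hv.2.2 x hx).trans_le hi⟩

private theorem UU_le (hN : Stair m d N f) {j : ℕ} (hj : j ≤ d) :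
    (UU N m d j).card ≤ f (m - 1) j := by
  rw [← hN.cnt (m - 1) (Nat.sub_le _ _) j hj]
  exact card_le_card (filter_subset _ _)

/-- the numbers of `growth_gain` -/
private theorem num_growth {ε d j C κ r r' F G H S₁ S₂ T : ℝ} (hε : 0 ≤ ε) (hdε : (d + 1) * ε ≤ 1 / 4)
    (hd : 0 ≤ d) (hj : 0 ≤ j) (hjd : j ≤ d) (hC : 0 ≤ C) (hκ : 0 ≤ κ) (hκ1 : κ ≤ 1 / 2) (hr0 : 0 ≤ r) (hr1 : r ≤ 1)
    (hg : r * (1 - C * ε + κ * (1 - r)) ≤ r') (hH0 : 0 ≤ H) (hHG : H ≤ G) (hGF : G ≤ F)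
    (hlast : H ≤ ε * F) (hhalf : F ≤ 2 * G) (hF : 0 < F)
    (hs1 : (1 - j * ε) * r' * (G - H) ≤ S₁) (hs2 : (1 - j * ε) * r * (F - G) ≤ S₂) (hT : S₁ + S₂ ≤ T) :
    r * (1 - (C + 8 * (d + 1)) * ε + κ / 8 * (1 - r)) * F ≤ T := by
  have hjε : j * ε ≤ d * ε := mul_le_mul_of_nonneg_right hjd hε
  have hjε0 : 0 ≤ j * ε := mul_nonneg hj hε
  have hdε0 : 0 ≤ d * ε := mul_nonneg hd hε
  have hdε' : d * ε + ε ≤ 1 / 4 := by linarith only [hdε, (by ring : (d + 1) * ε = d * ε + ε)]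
  have hj0 : 0 ≤ 1 - j * ε := by linarith only [hε, hdε, hjε]
  have hq : 0 ≤ 1 - r := by linarith only [hr1]
  have hκq : 0 ≤ κ * (1 - r) := mul_nonneg hκ hq
  have hCε : 0 ≤ C * ε := mul_nonneg hC hε
  -- from below
  have hA : (1 - j * ε) * (r * (1 - C * ε + κ * (1 - r)) * (G - H) + r * (F - G)) ≤ T := by
    have h1 : r * (1 - C * ε + κ * (1 - r)) * (G - H) ≤ r' * (G - H) :=
      mul_le_mul_of_nonneg_right hg (by linarith only [hHG])
    have h2 : (1 - j * ε) * (r * (1 - C * ε + κ * (1 - r)) * (G - H) + r * (F - G)) ≤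
        (1 - j * ε) * (r' * (G - H) + r * (F - G)) := mul_le_mul_of_nonneg_left (by linarith only [h1]) hj0
    have h3 : (1 - j * ε) * (r' * (G - H) + r * (F - G)) =
        (1 - j * ε) * r' * (G - H) + (1 - j * ε) * r * (F - G) := by ring
    linarith only [hs1, hs2, hT, h2]
  -- the bracket
  have hB : (1 - (1 + C) * ε + κ / 4 * (1 - r)) * F ≤
      (1 - C * ε + κ * (1 - r)) * (G - H) + (F - G) := by
    have h0 : ε * F ≤ 1 / 4 * F := mul_le_mul_of_nonneg_right (by linarith only [hdε, hjε, hjε0]) hF.le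
    have h1 : F / 4 ≤ G - H := by linarith only [hlast, hhalf, h0]
    have h2 : κ * (1 - r) * (F / 4) ≤ κ * (1 - r) * (G - H) := mul_le_mul_of_nonneg_left h1 hκq
    have h3 : C * ε * (G - H) ≤ C * ε * F := mul_le_mul_of_nonneg_left (by linarith only [hH0, hGF]) hCε
    have e1 : (1 - (1 + C) * ε + κ / 4 * (1 - r)) * F = F - ε * F - C * ε * F + κ * (1 - r) * (F / 4) := by
      ring
    have e2 : (1 - C * ε + κ * (1 - r)) * (G - H) + (F - G) =
        F - H - C * ε * (G - H) + κ * (1 - r) * (G - H) := by ring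
    rw [e1, e2]
    linarith only [hlast, h2, h3]
  have hB0 : (1 - j * ε) * (r * ((1 - (1 + C) * ε + κ / 4 * (1 - r)) * F)) ≤ T := by
    refine le_trans (mul_le_mul_of_nonneg_left ?_ hj0) hA
    calc r * ((1 - (1 + C) * ε + κ / 4 * (1 - r)) * F)
        ≤ r * ((1 - C * ε + κ * (1 - r)) * (G - H) + (F - G)) := mul_le_mul_of_nonneg_left hB hr0
      _ = _ := by ring
  refine le_trans ?_ hB0
  have h1 : 1 - (C + 8 * (d + 1)) * ε + κ / 8 * (1 - r) ≤
      (1 - j * ε) * (1 - (1 + C) * ε + κ / 4 * (1 - r)) := by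
    have h3 : 1 / 2 * (κ * (1 - r) / 4) ≤ (1 - j * ε) * (κ * (1 - r) / 4) :=
      mul_le_mul_of_nonneg_right (by linarith only [hε, hdε, hjε]) (by linarith only [hκq])
    have h4 : 0 ≤ j * ε * ((1 + C) * ε) := mul_nonneg hjε0 (mul_nonneg (by linarith only [hC]) hε)
    have e1 : (1 - j * ε) * (1 - (1 + C) * ε + κ / 4 * (1 - r)) =
        1 - ε - C * ε - j * ε + j * ε * ((1 + C) * ε) + (1 - j * ε) * (κ * (1 - r) / 4) := by ring
    have e2 : 1 - (C + 8 * (d + 1)) * ε + κ / 8 * (1 - r) =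
        1 - C * ε - 8 * (d * ε) - 8 * ε + 1 / 2 * (κ * (1 - r) / 4) := by ring
    rw [e1, e2]
    linarith only [hε, hjε, hjε0, h3, h4]
  calc r * (1 - (C + 8 * (d + 1)) * ε + κ / 8 * (1 - r)) * F
      ≤ r * ((1 - j * ε) * (1 - (1 + C) * ε + κ / 4 * (1 - r))) * F :=
        mul_le_mul_of_nonneg_right (mul_le_mul_of_nonneg_left h1 hr0) hF.le
    _ = (1 - j * ε) * (r * ((1 - (1 + C) * ε + κ / 4 * (1 - r)) * F)) := by ring

/-- the comparison of `y = x (1 - 4 ε)` and `r` -/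
private theorem num_phi {x y r δ κ : ℝ} (hy0 : 0 ≤ y) (hyx : y ≤ x) (hyr : y ≤ r) (hr1 : r ≤ 1)
    (hδ : δ ≤ 1 / 2) (hκ : 0 ≤ κ) (hκ1 : κ ≤ 1 / 2) :
    y * (1 - δ + κ * (1 - x)) ≤ r * (1 - δ + κ * (1 - r)) := by
  have h1 : y * (1 - δ + κ * (1 - x)) ≤ y * (1 - δ + κ * (1 - y)) := by
    refine mul_le_mul_of_nonneg_left ?_ hy0
    have : κ * (1 - x) ≤ κ * (1 - y) := mul_le_mul_of_nonneg_left (by linarith only [hyx]) hκ
    linarith only [this]
  refine h1.trans ?_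
  have h2 : 0 ≤ (r - y) * (1 - δ + κ * (1 - r - y)) := by
    refine mul_nonneg (by linarith only [hyr]) ?_
    have h3 : κ * (r + y - 1) ≤ κ * 1 := mul_le_mul_of_nonneg_left (by linarith only [hyr, hr1]) hκ
    have e1 : κ * (1 - r - y) = -(κ * (r + y - 1)) := by ring
    rw [e1]
    linarith only [hδ, hκ1, h3]
  have e2 : r * (1 - δ + κ * (1 - r)) - y * (1 - δ + κ * (1 - y)) =
      (r - y) * (1 - δ + κ * (1 - r - y)) := by ring
  linarith only [h2]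

/-- the numbers at the end of `kk_gain` -/
private theorem num_fin {x ε D δ κ B : ℝ} (hx0 : 0 ≤ x) (hx1 : x ≤ 1) (hε : 0 ≤ ε) (hε1 : ε ≤ 1 / 12)
    (hD : 0 ≤ D) (hδ : 0 ≤ δ) (hκ : 0 ≤ κ) (hB : 6 * ε + D + δ ≤ B) (hB1 : B ≤ 1 / 2) :
    x * (1 - 4 * B + κ / 2 * (1 - x)) ≤
      (1 - 2 * ε) * ((1 - D) * (x * (1 - 4 * ε) * (1 - δ + κ * (1 - x)))) := by
  set P : ℝ := (1 - 2 * ε) * (1 - D) * (1 - 4 * ε) with hP
  have hD1 : 0 ≤ 1 - D := by linarith only [hε, hδ, hB, hB1]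
  have hP1 : 1 - 6 * ε - D ≤ P := by
    have h0 : 0 ≤ ε ^ 2 * (1 - D) := mul_nonneg (by positivity) hD1
    have h3 : 0 ≤ ε * D := mul_nonneg hε hD
    have e1 : P = 1 - 6 * ε - D + 8 * (ε ^ 2 * (1 - D)) + 6 * (ε * D) := by rw [hP]; ring
    linarith only [h0, h3]
  have hPle : P ≤ 1 := by
    have h1 : (1 - 2 * ε) * (1 - D) ≤ 1 := mul_le_one₀ (by linarith only [hε]) hD1 (by linarith only [hD])
    exact mul_le_one₀ h1 (by linarith only [hε1]) (by linarith only [hε])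
  have hq : 0 ≤ κ * (1 - x) := mul_nonneg hκ (by linarith only [hx1])
  have hfin : 1 - 4 * B + κ / 2 * (1 - x) ≤ P * (1 - δ + κ * (1 - x)) := by
    have h1 : 1 / 2 * (κ * (1 - x)) ≤ P * (κ * (1 - x)) :=
      mul_le_mul_of_nonneg_right (by linarith only [hδ, hB, hB1, hP1]) hq
    have h3 : P * δ ≤ 1 * δ := mul_le_mul_of_nonneg_right hPle hδ
    have e1 : P * (1 - δ + κ * (1 - x)) = P - P * δ + P * (κ * (1 - x)) := by ring
    have e2 : κ / 2 * (1 - x) = 1 / 2 * (κ * (1 - x)) := by ring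
    rw [e1, e2]
    linarith only [hε, hD, hδ, hB, hP1, h1, h3]
  calc x * (1 - 4 * B + κ / 2 * (1 - x)) ≤ x * (P * (1 - δ + κ * (1 - x))) :=
        mul_le_mul_of_nonneg_left hfin hx0
    _ = _ := by rw [hP]; ring

/-- the numbers for the last degree -/
private theorem num_end {ε r F F' K U : ℝ} (hε : 0 ≤ ε) (hε1 : ε ≤ 1 / 12) (hr : 0 ≤ r) (hF' : 0 < F')
    (h1 : F' ≤ (1 + 2 * ε) * F) (h2 : r * F = U) (h3 : U ≤ K) (hU : 0 ≤ U) :
    (1 - 2 * ε) * r ≤ K / F' := by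
  rw [le_div_iff₀ hF']
  have h5 : (1 - 2 * ε) * r * F' ≤ (1 - 2 * ε) * r * ((1 + 2 * ε) * F) :=
    mul_le_mul_of_nonneg_left h1 (mul_nonneg (by linarith only [hε1]) hr)
  have h7 : (1 - 2 * ε) * r * ((1 + 2 * ε) * F) = U - 4 * (ε ^ 2 * U) := by
    rw [← h2]
    ring
  have h8 : 0 ≤ ε ^ 2 * U := by positivity
  linarith only [h3, h5, h7, h8]

theorem growth_gain (d : ℕ) (ω : ℝ) (hω : 0 < ω) (hω1 : ω ≤ 1) : ∃ κ C : ℝ, 0 < κ ∧ κ ≤ 1 / 2 ∧ 0 ≤ C ∧
    ∀ (m : ℕ) (N : Finset (Multiset ℕ)) (f : ℕ → ℕ → ℕ) (τ : ℕ → ℕ) (ε : ℝ) (s : ℕ), 0 ≤ ε → 1 ≤ m →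
      Stair m d N f → Thr m d f τ ε → Gn m d s f τ ω → ∀ j, 1 ≤ j → j + 1 < d → ∀ r : ℝ,
      r = ((UU N m d j).card : ℝ) / (f (m - 1) j : ℝ) →
      r * (1 - C * ε + κ * (1 - r)) ≤ ((UU N m d (j + 1)).card : ℝ) / (f (m - 1) (j + 1) : ℝ) := by
  obtain ⟨κ₀, C₀, hκ0, hκ1, hC0, hgain⟩ := gain d ω hω hω1
  refine ⟨κ₀ / 8, C₀ + 8 * (d + 1), by linarith only [hκ0], by linarith only [hκ0, hκ1], by positivity, ?_⟩
  intro m N f τ ε s hε hm hN hT hG j hj1 hj r hr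
  have hd0 : (0 : ℝ) ≤ d := Nat.cast_nonneg _
  have hfp : (0 : ℝ) < (f (m - 1) j : ℝ) := by exact_mod_cast hT.pos j (by omega)
  have hFp : (0 : ℝ) < (f (m - 1) (j + 1) : ℝ) := by exact_mod_cast hT.pos (j + 1) hj
  have hr0 : 0 ≤ r := by rw [hr]; positivity
  have hr1 : r ≤ 1 := by
    rw [hr, div_le_one hfp]
    exact_mod_cast UU_le hN (by omega)
  have hRHS : (0 : ℝ) ≤ ((UU N m d (j + 1)).card : ℝ) / (f (m - 1) (j + 1) : ℝ) := by positivity
  by_cases hbig : 1 / (4 * ((d : ℝ) + 1)) < ε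
  · -- the left side is not positive
    have h1 : 1 < 4 * ((d : ℝ) + 1) * ε := by
      rw [div_lt_iff₀ (by positivity)] at hbig
      linarith only [hbig]
    have h2 : 1 - (C₀ + 8 * ((d : ℝ) + 1)) * ε + κ₀ / 8 * (1 - r) ≤ 0 := by
      have h3 : 0 ≤ C₀ * ε := mul_nonneg hC0 hε
      have h4 : κ₀ / 8 * (1 - r) ≤ 1 := by nlinarith only [hκ1, hκ0, hr0]
      nlinarith only [h1, h3, h4]
    exact (mul_nonpos_of_nonneg_of_nonpos hr0 h2).trans hRHS
  push Not at hbig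
  have hdε : ((d : ℝ) + 1) * ε ≤ 1 / 4 := by
    rw [le_div_iff₀ (by positivity)] at hbig
    linarith only [hbig]
  have hjd : (j : ℝ) ≤ d := by exact_mod_cast (by omega : j ≤ d)
  have hjε : (j : ℝ) * ε ≤ d * ε := mul_le_mul_of_nonneg_right hjd hε
  set U := UU N m d j with hU
  have hUl : U ⊆ lay N (m - 1) j := filter_subset _ _
  have hUdn : Dn N U := UU_dn hN (by omega)
  have hthr := hG.thr (j + 1) (by omega) hj
  have hs := hG.spos
  have hds : s ≤ (d + 3) * s := Nat.le_mul_of_pos_left s (by omega)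
  set p := m - 1 - s with hp
  have hTp : τ (j + 1) ≤ p := by omega
  have hpm : p ≤ m - 1 := Nat.sub_le _ _
  -- the density at `p`
  have hden : den f U (m - 1) j = r := by
    unfold den
    rw [hr, filter_true_of_mem fun v hv => (mem_lay.1 (hUl hv)).2.2]
  have hg1 := hgain m N f τ ε s hε hN hT hG j hj1 hj (m - 1) (by omega) (by omega) U hUl hUdn
  rw [hden] at hg1
  set r' := den f U p j with hr'
  have hfpp : (0 : ℝ) < (f p j : ℝ) := by
    have h1 := hG.half1 j hj1 (by omega)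
    linarith only [hfp, h1]
  -- the sections
  have hsec1 : ∀ l ∈ Ico (τ (j + 1)) p, (1 - j * ε) * r' * (f (l + 1) j : ℝ) ≤
      ((U.filter fun v => ∀ x ∈ v, x < l + 1).card : ℝ) := by
    intro l hl
    rw [mem_Ico] at hl
    set U' := U.filter fun v => ∀ x ∈ v, x < p with hU'
    have h1 : U' ⊆ lay N p j := by
      intro v hv
      rw [hU', mem_filter] at hv
      have h2 := mem_lay.1 (hUl hv.1)
      exact mem_lay.2 ⟨h2.1, h2.2.1, hv.2⟩
    have h2 : Dn N U' := by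
      intro v hv b hb a hab haN
      rw [hU', mem_filter] at hv ⊢
      refine ⟨hUdn v hv.1 b hb a hab haN, fun x hx => ?_⟩
      rcases Multiset.mem_cons.1 hx with rfl | hx
      · exact hab.trans (hv.2 b hb)
      · exact hv.2 x (Multiset.mem_of_mem_erase hx)
    have h3 := density hN hT hε j hj p (l + 1) (by omega) (by omega) (by omega) U' h1 h2
    have h4 : (U'.filter fun v => ∀ x ∈ v, x < l + 1) = U.filter fun v => ∀ x ∈ v, x < l + 1 := by
      rw [hU', filter_filter]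
      refine filter_congr fun v _ => ?_
      constructor
      · exact fun h => h.2
      · exact fun h => ⟨fun x hx => (h x hx).trans_le (by omega), h⟩
    rw [h4] at h3
    have h5 : r' * (f p j : ℝ) = (U'.card : ℝ) := by
      rw [hr', den, div_mul_cancel₀ _ hfpp.ne']
    rw [← h5] at h3
    refine le_of_mul_le_mul_right ?_ hfpp
    calc (1 - j * ε) * r' * (f (l + 1) j : ℝ) * (f p j : ℝ)
        = (1 - j * ε) * (r' * (f p j : ℝ)) * (f (l + 1) j : ℝ) := by ring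
      _ ≤ _ := h3
  have hsec2 : ∀ l ∈ Ico p (m - 1), (1 - j * ε) * r * (f (l + 1) j : ℝ) ≤
      ((U.filter fun v => ∀ x ∈ v, x < l + 1).card : ℝ) := by
    intro l hl
    rw [mem_Ico] at hl
    have h3 := density hN hT hε j hj (m - 1) (l + 1) (by omega) (by omega) (by omega) U hUl hUdn
    have h5 : r * (f (m - 1) j : ℝ) = (U.card : ℝ) := by
      rw [hr, div_mul_cancel₀ _ hfp.ne']
    rw [← h5] at h3
    refine le_of_mul_le_mul_right ?_ hfp
    calc (1 - j * ε) * r * (f (l + 1) j : ℝ) * (f (m - 1) j : ℝ)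
        = (1 - j * ε) * (r * (f (m - 1) j : ℝ)) * (f (l + 1) j : ℝ) := by ring
      _ ≤ _ := h3
  have hsum : (∑ l ∈ Ico (τ (j + 1)) (m - 1), ((U.filter fun v => ∀ x ∈ v, x < l + 1).card : ℝ)) ≤
      ((UU N m d (j + 1)).card : ℝ) := by
    exact_mod_cast UU_sum hN hT hj
  rw [← sum_Ico_consecutive _ hTp hpm] at hsum
  have hs1 := sum_le_sum hsec1
  have hs2 := sum_le_sum hsec2
  rw [← mul_sum, sum_recu' hT hj _ _ le_rfl hTp (by omega)] at hs1
  rw [← mul_sum, sum_recu' hT hj _ _ hTp hpm (by omega)] at hs2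
  set F : ℝ := (f (m - 1) (j + 1) : ℝ) with hF
  set G : ℝ := (f p (j + 1) : ℝ) with hG'
  set H : ℝ := (f (τ (j + 1)) (j + 1) : ℝ) with hH
  have hlast : H ≤ ε * F := hT.last (j + 1) (by omega) hj
  have hhalf : F ≤ 2 * G := hG.half1 (j + 1) (by omega) hj
  have hGF : G ≤ F := by
    rw [hG', hF]
    exact_mod_cast f_mono hN hpm (Nat.sub_le _ _) hj.le
  have hH0 : 0 ≤ H := Nat.cast_nonneg _
  have hHG : H ≤ G := by
    rw [hH, hG']
    exact_mod_cast f_mono hN hTp (by omega) hj.le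
  rw [le_div_iff₀ hFp]
  exact num_growth hε hdε hd0 (Nat.cast_nonneg j) hjd hC0 hκ0.le hκ1 hr0 hr1 hg1 hH0 hHG hGF hlast hhalf
    hFp hs1 hs2 hsum

/-- the sum of the kernels is bounded by its last term -/
private theorem kk_bounds (hN : Stair m d N f) (hT : Thr m d f τ ε) (hm : 1 ≤ m) (hε : 0 ≤ ε)
    (hε4 : ((d : ℝ) + 1) * ε ≤ 1 / 4) {e : ℕ} (he : 1 ≤ e) (hed : e ≤ d) :
    (kk N m d e : ℝ) ≤ (1 + 4 * ε) * ((UU N m d (d - e)).card : ℝ) ∧
      ((UU N m d (d - 1)).card : ℝ) ≤ (kk N m d 1 : ℝ) := by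
  have hd0 : (0 : ℝ) ≤ d := by positivity
  have hε1 : ε ≤ 1 / 4 := by nlinarith only [hε4, hε]
  have hdε : (d : ℝ) * ε ≤ 1 / 4 := by nlinarith only [hε, hε4]
  set U : ℕ → ℝ := fun j => ((UU N m d j).card : ℝ) with hU
  set g : ℕ → ℝ := fun j => (f (m - 1) j : ℝ) with hg
  have hU0 : ∀ j, 0 ≤ U j := fun j => by positivity
  have hgp : ∀ j, j < d → 0 < g j := fun j hj => by
    have h1 := hT.pos j hj
    show (0 : ℝ) < (f (m - 1) j : ℝ)
    exact_mod_cast h1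
  have hgr : ∀ j, j + 1 < d → (1 - d * ε) * U j * g (j + 1) ≤ U (j + 1) * g j := by
    intro j hj
    have h1 := growth hN hT hε hm hj
    have h2 : (j : ℝ) + 1 ≤ d := by exact_mod_cast hj.le
    have h3 : (1 - d * ε) ≤ (1 - ((j : ℝ) + 1) * ε) := by nlinarith only [hε, h2]
    have h4 : (0 : ℝ) ≤ U j * g (j + 1) := mul_nonneg (hU0 j) (hgp _ hj).le
    calc (1 - d * ε) * U j * g (j + 1) = (1 - d * ε) * (U j * g (j + 1)) := by ring
      _ ≤ (1 - ((j : ℝ) + 1) * ε) * (U j * g (j + 1)) := mul_le_mul_of_nonneg_right h3 h4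
      _ = (1 - ((j : ℝ) + 1) * ε) * U j * g (j + 1) := by ring
      _ ≤ _ := h1
  have hsm : ∀ j, j + 1 < d → U j ≤ 2 * ε * U (j + 1) := by
    intro j hj
    have h1 := hgr j hj
    have h2 : g j ≤ ε * g (j + 1) := hT.small j hj
    have h3 := hgp _ hj
    have h4 : U (j + 1) * g j ≤ U (j + 1) * (ε * g (j + 1)) := mul_le_mul_of_nonneg_left h2 (hU0 _)
    have h5 : (1 - d * ε) * U j ≤ U (j + 1) * ε := by
      refine le_of_mul_le_mul_right ?_ h3
      linarith only [h1, h4]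
    have h6 := hU0 j
    nlinarith only [h5, h6, hε, hε4]
  have hsum : ∀ n, n < d → ∑ j ∈ range (n + 1), U j ≤ (1 + 4 * ε) * U n := by
    intro n
    induction n with
    | zero =>
      intro _
      rw [sum_range_one]
      nlinarith only [hε, hU0, hU0 0]
    | succ n ih =>
      intro hn
      rw [sum_range_succ]
      have h1 := ih (by omega)
      have h2 := hsm n hn
      have h3 := hU0 (n + 1)
      have h4 : (1 + 4 * ε) * U n ≤ (1 + 4 * ε) * (2 * ε * U (n + 1)) :=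
        mul_le_mul_of_nonneg_left h2 (by positivity)
      have h5 : (1 + 4 * ε) * (2 * ε * U (n + 1)) ≤ 4 * ε * U (n + 1) := by
        have h6 : (1 + 4 * ε) * (2 * ε) ≤ 4 * ε := by nlinarith only [hε, hε4]
        calc (1 + 4 * ε) * (2 * ε * U (n + 1)) = (1 + 4 * ε) * (2 * ε) * U (n + 1) := by ring
          _ ≤ _ := mul_le_mul_of_nonneg_right h6 h3
      linarith only [h1, h4, h5]
  constructor
  · rw [kk_sum hN hT hm he hed]
    push_cast
    exact hsum (d - e) (by omega)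
  · rw [kk_sum hN hT hm le_rfl (by omega)]
    push_cast
    exact single_le_sum (f := U) (fun j _ => hU0 j) (self_mem_range_succ (d - 1))

private theorem f_zero (hN : Stair m d N f) : f m 0 = f (m - 1) 0 := by
  rw [← hN.cnt m le_rfl 0 (Nat.zero_le d), ← hN.cnt (m - 1) (Nat.sub_le _ _) 0 (Nat.zero_le d)]
  congr 1
  ext v
  rw [mem_lay, mem_lay]
  constructor
  · rintro ⟨h4, h5, -⟩
    refine ⟨h4, h5, fun x hx => ?_⟩
    rw [Multiset.card_eq_zero.1 h5] at hx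
    exact absurd hx (Multiset.notMem_zero x)
  · rintro ⟨h4, h5, -⟩
    refine ⟨h4, h5, fun x hx => ?_⟩
    rw [Multiset.card_eq_zero.1 h5] at hx
    exact absurd hx (Multiset.notMem_zero x)

private theorem f_top (hN : Stair m d N f) (hT : Thr m d f τ ε) (hm : 1 ≤ m) (hε : 0 ≤ ε)
    (hε1 : ε ≤ 1 / 4) : ∀ j, j < d → (f m j : ℝ) ≤ (1 + 2 * ε) * (f (m - 1) j : ℝ) := by
  intro j
  induction j with
  | zero =>
    intro _
    rw [f_zero hN]
    have : (0 : ℝ) ≤ (f (m - 1) 0 : ℝ) := Nat.cast_nonneg _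
    nlinarith only [hε]
  | succ j ih =>
    intro hj
    have h1 := ih (by omega)
    have hlt := hT.lt (j + 1) (by omega) hj
    have h2 := hT.recu j hj (m - 1) (by omega) (by omega)
    have e1 : m - 1 + 1 = m := by omega
    rw [e1] at h2
    have h3 : (f m (j + 1) : ℝ) = (f (m - 1) (j + 1) : ℝ) + (f m j : ℝ) := by exact_mod_cast h2
    have h4 := hT.small j hj
    have h5 : (0 : ℝ) ≤ (f (m - 1) (j + 1) : ℝ) := Nat.cast_nonneg _
    have h6 : (1 + 2 * ε) * (f (m - 1) j : ℝ) ≤ (1 + 2 * ε) * (ε * (f (m - 1) (j + 1) : ℝ)) :=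
      mul_le_mul_of_nonneg_left h4 (by linarith only [hε])
    have h7 : (1 + 2 * ε) * ε ≤ 2 * ε := by nlinarith only [hε, hε1]
    have h8 : (1 + 2 * ε) * ε * (f (m - 1) (j + 1) : ℝ) ≤ 2 * ε * (f (m - 1) (j + 1) : ℝ) :=
      mul_le_mul_of_nonneg_right h7 h5
    rw [h3]
    nlinarith only [h1, h6, h8]

theorem kk_gain (d : ℕ) (ω : ℝ) (hω : 0 < ω) (hω1 : ω ≤ 1) : ∃ κ C : ℝ, 0 < κ ∧ κ ≤ 1 / 2 ∧ 0 ≤ C ∧
    ∀ (e m : ℕ) (N : Finset (Multiset ℕ)) (f : ℕ → ℕ → ℕ) (τ : ℕ → ℕ) (ε : ℝ) (s : ℕ), 2 ≤ e →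
      e + 1 ≤ d → 0 ≤ ε → 1 ≤ m → Stair m d N f → Thr m d f τ ε → Gn m d s f τ ω → ∀ x : ℝ,
      x = (kk N m d e : ℝ) / (f m (d - e) : ℝ) →
      x * (1 - C * ε + κ * (1 - x)) ≤ (kk N m d 1 : ℝ) / (f m (d - 1) : ℝ) := by
  obtain ⟨κ₁, C₁, hκ0, hκ1, hC1, hgg⟩ := growth_gain d ω hω hω1
  set B : ℝ := 6 + ((d : ℝ) + 1) * C₁ + 2 * (d + 1) with hB
  have hd0 : (0 : ℝ) ≤ d := Nat.cast_nonneg _
  have hB6 : 6 ≤ B := by
    have : 0 ≤ ((d : ℝ) + 1) * C₁ := by positivity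
    linarith only [hκ0, hκ1, this]
  refine ⟨κ₁ / 2, 4 * B, by linarith only [hκ0], by linarith only [hκ0, hκ1], by linarith only [hκ0, hκ1, hB6], ?_⟩
  intro e m N f τ ε s he hed hε hm hN hT hG x hx
  have hfe : (0 : ℝ) ≤ (f m (d - e) : ℝ) := Nat.cast_nonneg _
  have hx0 : 0 ≤ x := by rw [hx]; positivity
  have hx1 : x ≤ 1 := by
    rw [hx]
    refine div_le_one_of_le₀ ?_ hfe
    have h1 : kk N m d e ≤ f m (d - e) := by
      rw [← hN.cnt m le_rfl (d - e) (Nat.sub_le _ _)]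
      exact card_le_card (filter_subset _ _)
    exact_mod_cast h1
  have hRHS : (0 : ℝ) ≤ (kk N m d 1 : ℝ) / (f m (d - 1) : ℝ) := by positivity
  by_cases hbig : 1 < 4 * B * ε / 2
  · have h2 : 1 - 4 * B * ε + κ₁ / 2 * (1 - x) ≤ 0 := by
      have h4 : κ₁ / 2 * (1 - x) ≤ 1 := by nlinarith only [hκ1, hκ0, hx0]
      linarith only [hbig, h4]
    exact (mul_nonpos_of_nonneg_of_nonpos hx0 h2).trans hRHS
  push Not at hbig
  have hBε : B * ε ≤ 1 / 2 := by linarith only [hbig]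
  have hCε0 : 0 ≤ ((d : ℝ) + 1) * C₁ * ε := by positivity
  have hdε0 : 0 ≤ ((d : ℝ) + 1) * ε := by positivity
  have hBe : B * ε = 6 * ε + ((d : ℝ) + 1) * C₁ * ε + 2 * (((d : ℝ) + 1) * ε) := by rw [hB]; ring
  set δ : ℝ := C₁ * ε with hδ
  have hδ0 : 0 ≤ δ := mul_nonneg hC1 hε
  have hdδ : ((d : ℝ) + 1) * C₁ * ε = (d + 1) * δ := by rw [hδ]; ring
  rw [hdδ] at hBe hCε0
  have hε4 : ((d : ℝ) + 1) * ε ≤ 1 / 4 := by linarith only [hε, hbig, hCε0]
  have hε12 : ε ≤ 1 / 12 := by linarith only [hbig, hdε0, hCε0]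
  have hdδ0 : 0 ≤ (d : ℝ) * δ := mul_nonneg hd0 hδ0
  have hδ2 : (d : ℝ) * δ + δ ≤ 1 / 2 := by linarith only [hε, hbig, hdε0]
  have hδ1 : δ ≤ 1 / 2 := by linarith only [hε, hbig, hdε0, hdδ0]
  obtain ⟨hk1, hk2⟩ := kk_bounds hN hT hm hε hε4 (show 1 ≤ e by omega) (show e ≤ d by omega)
  set r : ℕ → ℝ := fun j => ((UU N m d j).card : ℝ) / (f (m - 1) j : ℝ) with hr
  have hfp : ∀ j, j < d → (0 : ℝ) < (f (m - 1) j : ℝ) := fun j hj => by exact_mod_cast hT.pos j hj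
  have hr0 : ∀ j, 0 ≤ r j := fun j => by rw [hr]; positivity
  have hr1 : ∀ j, j < d → r j ≤ 1 := by
    intro j hj
    show ((UU N m d j).card : ℝ) / (f (m - 1) j : ℝ) ≤ 1
    rw [div_le_one (hfp j hj)]
    exact_mod_cast UU_le hN (by omega)
  have hstep : ∀ j, 1 ≤ j → j + 1 < d → r j * (1 - δ + κ₁ * (1 - r j)) ≤ r (j + 1) :=
    fun j h1 h2 => hgg m N f τ ε s hε hm hN hT hG j h1 h2 (r j) rfl
  set φ : ℝ := r (d - e) * (1 - δ + κ₁ * (1 - r (d - e))) with hφ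
  have hrde := hr0 (d - e)
  have hrde1 := hr1 (d - e) (by omega)
  have hφ0 : 0 ≤ φ := by
    refine mul_nonneg hrde ?_
    have : 0 ≤ κ₁ * (1 - r (d - e)) := mul_nonneg hκ0.le (by linarith only [hrde1])
    linarith only [hκ0, hκ1, hε, hbig, hdε0, hdδ0, this]
  have hchain : ∀ k, d - e + 1 + k < d → (1 - δ) ^ k * φ ≤ r (d - e + 1 + k) := by
    intro k
    induction k with
    | zero =>
      intro hk
      rw [pow_zero, one_mul, add_zero]
      exact hstep (d - e) (by omega) (by omega)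
    | succ k ih =>
      intro hk
      have h1 := ih (by omega)
      have h2 := hstep (d - e + 1 + k) (by omega) (by omega)
      have h3 : r (d - e + 1 + k) * (1 - δ) ≤ r (d - e + 1 + k) * (1 - δ + κ₁ * (1 - r (d - e + 1 + k))) := by
        refine mul_le_mul_of_nonneg_left ?_ (hr0 _)
        have : 0 ≤ κ₁ * (1 - r (d - e + 1 + k)) :=
          mul_nonneg hκ0.le (by linarith only [hr1, hk, hr1 (d - e + 1 + k) (by omega)])
        linarith only [this]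
      have h4 : (1 - δ) ^ (k + 1) * φ ≤ r (d - e + 1 + k) * (1 - δ) := by
        rw [pow_succ]
        calc (1 - δ) ^ k * (1 - δ) * φ = (1 - δ) ^ k * φ * (1 - δ) := by ring
          _ ≤ _ := mul_le_mul_of_nonneg_right h1 (by linarith only [hκ0, hκ1, hε, hbig, hdε0, hdδ0])
      exact h4.trans (h3.trans h2)
  have hc := hchain (e - 2) (by omega)
  have e1 : d - e + 1 + (e - 2) = d - 1 := by omega
  rw [e1] at hc
  have hpow : 1 - (d : ℝ) * δ ≤ (1 - δ) ^ (e - 2) := by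
    have h1 := one_add_mul_le_pow (a := -δ) (by linarith only [hκ0, hκ1, hε, hbig, hdε0, hdδ0]) (e - 2)
    have h2 : ((e - 2 : ℕ) : ℝ) ≤ d := by
      have : e - 2 ≤ d := by omega
      exact_mod_cast this
    have h3 : ((e - 2 : ℕ) : ℝ) * δ ≤ d * δ := mul_le_mul_of_nonneg_right h2 hδ0
    rw [← sub_eq_add_neg] at h1
    nlinarith only [h1, h3]
  have hc2 : (1 - d * δ) * φ ≤ r (d - 1) := (mul_le_mul_of_nonneg_right hpow hφ0).trans hc
  -- comparison at the two ends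
  set y : ℝ := x * (1 - 4 * ε) with hy
  have hy0 : 0 ≤ y := mul_nonneg hx0 (by linarith only [hκ0, hκ1, hbig, hdε0, hCε0])
  have hyx : y ≤ x := by
    have : 0 ≤ x * ε := mul_nonneg hx0 hε
    rw [hy]
    linarith only [this]
  have hyr : y ≤ r (d - e) := by
    have h1 : f (m - 1) (d - e) ≤ f m (d - e) := f_mono hN (Nat.sub_le _ _) le_rfl (Nat.sub_le _ _)
    have h2 : (f (m - 1) (d - e) : ℝ) ≤ (f m (d - e) : ℝ) := by exact_mod_cast h1
    have h3 := hfp (d - e) (by omega)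
    have h4 : x ≤ (1 + 4 * ε) * r (d - e) := by
      rw [hx]
      calc (kk N m d e : ℝ) / (f m (d - e) : ℝ)
          ≤ ((1 + 4 * ε) * ((UU N m d (d - e)).card : ℝ)) / (f m (d - e) : ℝ) :=
            div_le_div_of_nonneg_right hk1 hfe
        _ ≤ ((1 + 4 * ε) * ((UU N m d (d - e)).card : ℝ)) / (f (m - 1) (d - e) : ℝ) :=
            div_le_div_of_nonneg_left (by positivity) h3 h2
        _ = (1 + 4 * ε) * r (d - e) := by rw [hr]; ring
    have h5 : x * (1 - 4 * ε) ≤ (1 + 4 * ε) * r (d - e) * (1 - 4 * ε) :=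
      mul_le_mul_of_nonneg_right h4 (by linarith only [hκ0, hκ1, hbig, hdε0, hCε0])
    have h6 : 0 ≤ r (d - e) * ε ^ 2 := mul_nonneg hrde (by positivity)
    have e2 : (1 + 4 * ε) * r (d - e) * (1 - 4 * ε) = r (d - e) - 16 * (r (d - e) * ε ^ 2) := by ring
    rw [hy]
    linarith only [h5, h6]
  have hφy : y * (1 - δ + κ₁ * (1 - x)) ≤ φ := num_phi hy0 hyx hyr hrde1 hδ1 hκ0.le hκ1
  have hend : (1 - 2 * ε) * r (d - 1) ≤ (kk N m d 1 : ℝ) / (f m (d - 1) : ℝ) := by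
    have h1 := f_top hN hT hm hε (by linarith only [hκ0, hκ1, hbig, hdε0, hCε0]) (d - 1) (by omega)
    have h2 := hfp (d - 1) (by omega)
    have h3 : (f (m - 1) (d - 1) : ℝ) ≤ (f m (d - 1) : ℝ) := by
      exact_mod_cast f_mono hN (Nat.sub_le _ _) le_rfl (Nat.sub_le _ _)
    have h4 : (0 : ℝ) < (f m (d - 1) : ℝ) := by linarith only [h2, h3]
    have h6 : r (d - 1) * (f (m - 1) (d - 1) : ℝ) = ((UU N m d (d - 1)).card : ℝ) := by
      rw [hr]
      exact div_mul_cancel₀ _ h2.ne'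
    exact num_end hε hε12 (hr0 _) h4 h1 h6 hk2 (Nat.cast_nonneg _)
  refine le_trans ?_ hend
  have h2ε : 0 ≤ 1 - 2 * ε := by linarith only [hκ0, hκ1, hbig, hdε0, hCε0]
  have hdδ1 : 0 ≤ 1 - d * δ := by linarith only [hκ0, hκ1, hε, hbig, hdε0, hδ0]
  refine le_trans ?_ (mul_le_mul_of_nonneg_left hc2 h2ε)
  refine le_trans ?_ (mul_le_mul_of_nonneg_left (mul_le_mul_of_nonneg_left hφy hdδ1) h2ε)
  have h9 := num_fin (x := x) (ε := ε) (D := d * δ) (δ := δ) (κ := κ₁) (B := B * ε) hx0 hx1 hε hε12 hdδ0 hδ0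
    hκ0.le (by linarith only [hdε0]) hBε
  rw [hy]
  calc x * (1 - 4 * B * ε + κ₁ / 2 * (1 - x)) = x * (1 - 4 * (B * ε) + κ₁ / 2 * (1 - x)) := by ring
    _ ≤ _ := h9

end Pool.Agent.XE
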